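import Mathlib

/-!
# Hyperfiniteness of a tracial von Neumann algebra
-/

set_option autoImplicit false

namespace Pool.Agent.U517.EX

/-- `N` with the trace `τ(x) = ⟪Ω, x Ω⟫` is hyperfinite (approximately finite dimensional): for
finitely many elements `x` of `N` and `ε > 0` there is a finite-dimensional unital `*`-subalgebra `B`
of `N` with elements `b` such that `‖x - b‖₂ = ‖(x - b) Ω‖ < ε`. -/
structure Hyperfinite {H : Type} [NormedAddCommGroup H] [InnerProductSpace ℂ H] [CompleteSpace H]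
    (N : VonNeumannAlgebra H) (Ω : H) : Prop where
  approx : ∀ (S : Finset (H →L[ℂ] H)) (ε : ℝ), (∀ x ∈ S, x ∈ N) → 0 < ε →
    ∃ B : StarSubalgebra ℂ (H →L[ℂ] H), FiniteDimensional ℂ B ∧ (∀ b ∈ B, b ∈ N) ∧
      ∀ x ∈ S, ∃ b ∈ B, ‖(x - b) Ω‖ < ε

end Pool.Agent.U517.EX
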