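import Pool.Agent.U517.EX.Hyp

/-!
# The hyperfinite II₁ factor in a II₁ factor with property (T), existentially
-/

set_option autoImplicit false

namespace Pool.Agent.U517.EX

open Filter Topology
open Pool.Agent.H494R3.GT (L2 dl)
open Pool.Agent.N557.QW (LG LK)
open Pool.Agent.N44.NS (el E3)
open Pool.Agent.N708.MX (PT)
open Pool.Agent.N571.EX

theorem final : ∃ (H : Type) (_ : NormedAddCommGroup H) (_ : InnerProductSpace ℂ H)
    (_ : CompleteSpace H) (_ : TopologicalSpace.SeparableSpace H) (N M : VonNeumannAlgebra H)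
    (Ω : H), Plain.IsExample N M Ω ∧ Hyperfinite N Ω := by
  obtain ⟨F, _, _, hF1, hF2⟩ := t_fld
  obtain ⟨Γ, _, s, t, K, Kn, θ, hst, hi1, hi2, hinf, hD⟩ := t_gam
  have : Infinite K := hinf
  have : Infinite Γ := Infinite.of_injective (Subtype.val : K → Γ) Subtype.val_injective
  obtain ⟨K', Kn', θ', hD', ⟨e⟩⟩ := t_ex3 F Γ K Kn θ hD
  have hT : PT (E3 (MonoidAlgebra F Γ)) := t_tg Pool.Agent.N403.MX.t_tt F hF1 Γ s t hst
  have hiG : ICC (E3 (MonoidAlgebra F Γ)) := t_icc F Γ hF2 hi1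
  have hiK : ICC K' := icc_congr e (t_icc F K hF2 hi2)
  have hinfK : Infinite K' := by
    have := inf_e3 F K
    exact Infinite.of_injective e e.injective
  have hinfG : Infinite (E3 (MonoidAlgebra F Γ)) := inf_e3 F Γ
  obtain ⟨k, γ, hγ⟩ := Pool.Agent.N403.MX.t_fg (E3 (MonoidAlgebra F Γ)) hT
  have : Countable (E3 (MonoidAlgebra F Γ)) := hγ.countable
  have hTR : S_TR := t_tr
  have hDEN : S_DEN := t_den hTR
  have hPF : S_PF := t_pf hTR hDEN
  obtain ⟨h1, -⟩ := hTR (E3 (MonoidAlgebra F Γ)) K'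
  have hsub : ∀ x ∈ LK K', x ∈ LG (E3 (MonoidAlgebra F Γ)) := fun x hx => ((h1 x).1 hx).1
  refine ⟨L2 (E3 (MonoidAlgebra F Γ)), inferInstance, inferInstance, inferInstance, sep _, LK K',
    LG (E3 (MonoidAlgebra F Γ)), dl 1,
    { sub := hsub
      factorN := Plain.iione ((t_fac hTR _ K').2 hiK hinfK)
      factorM := Plain.iione ((t_fac hTR _ K').1 hiG hinfG)
      haagerup := Plain.haag (t_haa hTR _ K' Kn' hD'.mono hD'.fin hD'.mem)
      propertyT := Plain.hast (t_ptm t_kp t_res t_cay hTR hDEN _ hT)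
      existential := fun U hU => Plain.exi hsub
        (t_exi hTR t_res t_cay hPF (t_rl1 hTR hPF) (t_rl2 hTR t_res hPF) _ K' Kn' θ' hD' U hU) },
    hyp K' Kn' hD'.mono hD'.fin hD'.mem⟩

end Pool.Agent.U517.EX
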