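import Pool.Agent.N571.EX.Plain
import Pool.Agent.U517.EX.Defs

/-!
# The von Neumann algebra of a locally finite group is hyperfinite

With this the example of the library `N571/EX` gives: the hyperfinite `II₁` factor has an
existential embedding in a `II₁` factor with property (T).
-/

set_option autoImplicit false

namespace Pool.Agent.U517.EX

open Filter Topology
open scoped InnerProductSpace ComplexOrder
open Pool.Agent.H494R3.GT (L2 dl inner_dl vec_ext)
open Pool.Agent.N557.QW (lam rgt LG LK cf rc)
open Pool.Agent.N44.NS (el E3)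
open Pool.Agent.N708.MX (PT)
open Pool.Agent.N571.EX

noncomputable section

variable {G : Type} [Group G]

/-- the group algebra of a subgroup, in its regular representation -/
def spn (L : Subgroup G) : StarSubalgebra ℂ (L2 G →L[ℂ] L2 G) where
  carrier := Submodule.span ℂ (lam '' (L : Set G))
  mul_mem' := by
    intro a b ha hb
    have h1 : a * b ∈ Submodule.span ℂ (lam '' (L : Set G)) * Submodule.span ℂ (lam '' (L : Set G)) :=
      Submodule.mul_mem_mul ha hb
    rw [Submodule.span_mul_span] at h1
    refine Submodule.span_mono ?_ h1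
    rintro _ ⟨_, ⟨g, hg, rfl⟩, _, ⟨h, hh, rfl⟩, rfl⟩
    exact ⟨g * h, L.mul_mem hg hh, Pool.Agent.N557.QW.lam_mul g h⟩
  one_mem' := Submodule.subset_span ⟨1, L.one_mem, Pool.Agent.N557.QW.lam_one⟩
  add_mem' := fun ha hb => Submodule.add_mem _ ha hb
  zero_mem' := Submodule.zero_mem _
  algebraMap_mem' := by
    intro c
    have h1 : (algebraMap ℂ (L2 G →L[ℂ] L2 G)) c = c • lam (1 : G) := by
      rw [Pool.Agent.N557.QW.lam_one, Algebra.algebraMap_eq_smul_one]
    rw [h1]
    exact Submodule.smul_mem _ _ (Submodule.subset_span ⟨1, L.one_mem, rfl⟩)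
  star_mem' := by
    intro a ha
    change star a ∈ Submodule.span ℂ (lam '' (L : Set G))
    change a ∈ Submodule.span ℂ (lam '' (L : Set G)) at ha
    induction ha using Submodule.span_induction with
    | mem x hx =>
      obtain ⟨g, hg, rfl⟩ := hx
      rw [Pool.Agent.N557.QW.star_lam]
      exact Submodule.subset_span ⟨g⁻¹, L.inv_mem hg, rfl⟩
    | zero => rw [star_zero]; exact Submodule.zero_mem _
    | add x y _ _ hx hy => rw [star_add]; exact Submodule.add_mem _ hx hy
    | smul c x _ hx => rw [star_smul]; exact Submodule.smul_mem _ _ hx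

lemma mem_spn {L : Subgroup G} {x : L2 G →L[ℂ] L2 G} :
    x ∈ spn L ↔ x ∈ Submodule.span ℂ (lam '' (L : Set G)) := Iff.rfl

lemma spn_mono {L L' : Subgroup G} (h : L ≤ L') {x : L2 G →L[ℂ] L2 G} (hx : x ∈ spn L) :
    x ∈ spn L' :=
  Submodule.span_mono (Set.image_mono h) hx

lemma spn_finite (L : Subgroup G) [Finite L] : FiniteDimensional ℂ (spn L) := by
  have h1 : (lam '' (L : Set G)).Finite := (Set.toFinite (L : Set G)).image _
  exact FiniteDimensional.span_of_finite ℂ h1

/-- `L(K)` is hyperfinite for a union `K` of finite subgroups. -/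
theorem hyp (K : Subgroup G) (Kn : ℕ → Subgroup G) (hm : Monotone Kn)
    (hf : ∀ n, Finite (Kn n)) (hK : ∀ x, x ∈ K ↔ ∃ n, x ∈ Kn n) :
    Hyperfinite (LK K) (dl (1 : G)) := by
  classical
  obtain ⟨hLK, -⟩ := t_tr G K
  obtain ⟨-, hden⟩ := t_den t_tr G
  have hlamK : ∀ n, ∀ b ∈ spn (Kn n), b ∈ LK K := by
    intro n b hb
    rw [mem_spn] at hb
    induction hb using Submodule.span_induction with
    | mem x hx =>
      obtain ⟨g, hg, rfl⟩ := hx
      rw [hLK]
      refine ⟨Pool.Agent.N557.QW.lam_mem g, fun k hk => ?_⟩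
      have hne : k ≠ g := by
        rintro rfl
        exact hk ((hK _).2 ⟨n, hg⟩)
      unfold cf
      rw [Pool.Agent.N557.QW.lam_dl, mul_one, inner_dl]
      exact Pool.Agent.H494R3.GT.dl_apply_ne hne
    | zero => exact (LK K).zero_mem
    | add x y _ _ hx hy => exact (LK K).add_mem hx hy
    | smul c x _ hx => exact (LK K).smul_mem hx c
  refine ⟨fun S ε hS hε => ?_⟩
  have key : ∀ S : Finset (L2 G →L[ℂ] L2 G), (∀ x ∈ S, x ∈ LK K) →
      ∃ n, ∀ x ∈ S, ∃ b ∈ spn (Kn n), ‖(x - b) (dl (1 : G))‖ < ε := by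
    intro S
    induction S using Finset.induction_on with
    | empty => intro _; exact ⟨0, by simp⟩
    | insert a S ha ih =>
      intro hS
      obtain ⟨n, hn⟩ := ih fun x hx => hS x (Finset.mem_insert_of_mem hx)
      obtain ⟨haG, haK⟩ := (hLK a).1 (hS a (Finset.mem_insert_self _ _))
      obtain ⟨p, hp1, -, hp3⟩ := hden a haG ε hε
      have hpK : ∀ g ∈ p.support, g ∈ K := fun g hg => by
        by_contra hcon
        exact hp3 g hg (haK g hcon)
      have hex : ∀ T : Finset G, (∀ g ∈ T, g ∈ K) → ∃ m, ∀ g ∈ T, g ∈ Kn m := by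
        intro T
        induction T using Finset.induction_on with
        | empty => intro _; exact ⟨0, by simp⟩
        | insert g T _ ihT =>
          intro hT
          obtain ⟨m, hm1⟩ := ihT fun x hx => hT x (Finset.mem_insert_of_mem hx)
          obtain ⟨m', hm2⟩ := (hK g).1 (hT g (Finset.mem_insert_self _ _))
          refine ⟨max m m', fun x hx => ?_⟩
          rcases Finset.mem_insert.1 hx with rfl | hx
          · exact hm (le_max_right _ _) hm2
          · exact hm (le_max_left _ _) (hm1 x hx)
      obtain ⟨m, hm1⟩ := hex _ hpK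
      refine ⟨max n m, fun x hx => ?_⟩
      rcases Finset.mem_insert.1 hx with rfl | hx
      · refine ⟨pf id p, ?_, ?_⟩
        · unfold pf
          refine Submodule.sum_mem _ fun g hg => Submodule.smul_mem _ _ ?_
          exact Submodule.subset_span ⟨g, hm (le_max_right _ _) (hm1 g hg), rfl⟩
        · rw [sub_apply]; exact hp1
      · obtain ⟨b, hb, hb2⟩ := hn x hx
        exact ⟨b, spn_mono (hm (le_max_left _ _)) hb, hb2⟩
  obtain ⟨n, hn⟩ := key S hS
  have := hf n
  exact ⟨spn (Kn n), spn_finite _, hlamK n, hn⟩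

end

end Pool.Agent.U517.EX
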